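import Mathlib
import Pool.Agent.H170.Reg.Fam

set_option autoImplicit false

/-!
# Nowhere-zero 5-flows and sparsely joined 3-edge-cuts (MP_c8786f_co)

Let `G` be a 3-edge-connected multigraph and let `C_1, ..., C_m` be cycles of `G`, each with at
most four edges outside the union of the earlier ones.  Suppose that for all pairwise disjoint
vertex sets `X_1, ..., X_t`, each with exactly three boundary edges and none of these on any of the
cycles, at most `t / 2 + 10` edges join different sets `X_i`.  Then `G` has a nowhere-zero 5-flow.

For example: if every 3-edge-cut of the 3-edge-connected graph `G` isolates a vertex and every set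
`J` of vertices of degree three which lie on no cycle of length at most four spans at most
`|J| / 2 + 10` edges, then `G` has a nowhere-zero 5-flow.

Proof.  Let `F` be the union of the cycles.  Every function on `F` with values in `Z_5` can be
changed, without changing its boundary, so that it avoids one forbidden value on every edge (add
multiples of the last cycle, and use induction).  A partition of the vertex set into `c` classes
which are unions of components of `F` has at least `(5/3)(c - 1)` crossing edges, by the sparsity
condition.  So the graph in which the edges of `F` are replaced by many parallel edges has strength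
at least `5/3`; by the covering theorem (starting files `H239R2/Cover`) it has a `Z_5`-flow avoiding
one forbidden value per edge.  Finally the values on `F` are corrected.
-/

namespace Pool.Agent.Results.MP_c8786f_co.SparseThreeCuts

variable {V E : Type}

/-- The edges with exactly one end in `X`. -/
def boundary [DecidableEq V] [Fintype E] (src dst : E → V) (X : Finset V) : Finset E :=
  Finset.univ.filter (fun e => ¬ (src e ∈ X ↔ dst e ∈ X))

/-- Kirchhoff's law. -/
def IsFlow [DecidableEq V] [Fintype E] (src dst : E → V) (f : E → ℤ) : Prop :=
  ∀ v : V, ∑ e ∈ Finset.univ.filter (fun e => src e = v), f e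
    = ∑ e ∈ Finset.univ.filter (fun e => dst e = v), f e

theorem isFlow_iff [DecidableEq V] [Fintype E] (src dst : E → V) (f : E → ℤ) :
    IsFlow src dst f ↔
      ∀ v, ∑ e, f e * ((if src e = v then 1 else 0) - (if dst e = v then 1 else 0)) = 0 := by
  unfold IsFlow
  refine forall_congr' fun v => ?_
  rw [Finset.sum_filter, Finset.sum_filter, ← sub_eq_zero, ← Finset.sum_sub_distrib]
  have : ∀ e, (if src e = v then f e else 0) - (if dst e = v then f e else 0)
      = f e * ((if src e = v then 1 else 0) - (if dst e = v then 1 else 0)) := by
    intro e
    by_cases h1 : src e = v <;> by_cases h2 : dst e = v <;> simp [h1, h2]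
  rw [Finset.sum_congr rfl (fun e _ => this e)]

open Classical in
theorem result :
    ∀ (V E : Type) [Fintype V] [DecidableEq V] [Fintype E] [DecidableEq E] (src dst : E → V)
      (m : ℕ) (C : Fin m → Finset E),
      (∀ X : Finset V, X.Nonempty → X ≠ Finset.univ → 3 ≤ (boundary src dst X).card) →
      (∀ i, ∃ z : E → ℤ, IsFlow src dst z ∧ (∀ e, z e = 0 ∨ z e = 1 ∨ z e = -1) ∧
        ∀ e, z e ≠ 0 ↔ e ∈ C i) →
      (∀ i, (C i \ (Finset.univ.filter (fun j => j < i)).biUnion C).card ≤ 4) →
      (∀ (t : ℕ) (X : Fin t → Finset V), (∀ i j, i ≠ j → Disjoint (X i) (X j)) →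
        (∀ i, (boundary src dst (X i)).card = 3 ∧
          ∀ j, Disjoint (boundary src dst (X i)) (C j)) →
        2 * (Finset.univ.filter
          (fun e => ∃ i j, i ≠ j ∧ src e ∈ X i ∧ dst e ∈ X j)).card ≤ t + 20) →
      ∃ f : E → ℤ, IsFlow src dst f ∧ ∀ e, 1 ≤ |f e| ∧ |f e| ≤ 4 := by
  intro V E _ _ _ _ src dst m C h3 hC hnew hX
  obtain ⟨f, hf, hfb⟩ := Pool.Agent.H170.Reg.five_flow src dst m C (by
    intro i
    obtain ⟨z, h1, h2, h4⟩ := hC i
    exact ⟨z, h2, h4, (isFlow_iff src dst z).mp h1⟩) (by
    intro i
    have := hnew i
    convert this) h3 (by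
    intro t X hdis hcard
    have := hX t X hdis hcard
    convert this)
  exact ⟨f, (isFlow_iff src dst f).mpr hfb, hf⟩

end Pool.Agent.Results.MP_c8786f_co.SparseThreeCuts
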